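import Pool.Agent.Y920.QB.FieldQ
import Pool.Agent.Y941.QB.UD
import Pool.Agent.Y891.QB.Cut

set_option autoImplicit false

/-! # MP_2429c0_al: fields whose norm groups have bounded index -/

namespace Pool.Agent.Results.MP_2429c0_al.LargeNormGroups

open Pool.Agent.H315R3.ETC Pool.Agent.TH188.ET Pool.Agent.Y920.ETC Pool.Agent.Y920.QB

/-- the group of squares of `F*` -/
def squares (F : Type) [Field F] : Subgroup Fˣ := (powMonoidHom 2 : Fˣ →* Fˣ).range

/-- the group of the nonzero values of `x² - a y²`: the norm group of `F(√a)` if `a` is not a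
square -/
def normGroup {F : Type} [Field F] (a : Fˣ) : Subgroup Fˣ where
  carrier := {c | ∃ x y : F, (c : F) = x ^ 2 - a * y ^ 2}
  one_mem' := (nG a).one_mem
  mul_mem' := (nG a).mul_mem
  inv_mem' := (nG a).inv_mem

/-- the characteristic is not two, `F*/F*²` is finite, and all norm groups of quadratic extensions
have index at most `N` in `F*` -/
def NormIndexAtMost (F : Type) [Field F] (N : ℕ) : Prop :=
  (2 : F) ≠ 0 ∧ (squares F).index ≠ 0 ∧ ∀ a : Fˣ, (normGroup a).index ≤ N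

/-- the quaternionic structure of `F` is of elementary type -/
def ElementaryType (F : Type) [Field F] : Prop := ∃ S : QData, Elem S ∧ IsStructureOf F S

theorem result (N : ℕ) :
    -- the structure of the field is glued from a small part and nondegenerate forms
    (∀ (F : Type) [Field F], NormIndexAtMost F N →
      ∃ (S : QData) (n : ℕ) (L : Fin n → Subgroup S.G) (B : Subgroup S.G)
        (lam : Fin n → S.G → S.G → ZMod 2) (ψ : (Fin n → ZMod 2) → S.Q),
        IsStructureOf F S ∧ 2 ^ n ≤ N ∧ Glue S n L B lam ψ ∧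
        Nat.card B ≤ 2 ^ (16 * N ^ 4) * radCard S) ∧
    -- a small substructure decides
    (∀ (F : Type) [Field F], NormIndexAtMost F N →
      ∃ (S T : QData) (ι : T.G →* S.G), IsStructureOf F S ∧ IsQuat T ∧ Finite T.G ∧ Emb T S ι ∧
        (∀ a : T.G, idx T a ≤ N) ∧ Nat.card T.G ≤ 2 * N ^ 2 * 2 ^ (16 * N ^ 4) ∧
        (ElementaryType F ↔ Elem T)) ∧
    -- the conjecture for norm groups of bounded index is a question on finitely many structures
    ((∀ T : QData, IsQuat T → Finite T.G → Nat.card T.G ≤ 2 * N ^ 2 * 2 ^ (16 * N ^ 4) →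
        (∀ a : T.G, idx T a ≤ N) → Elem T) →
      ∀ (F : Type) [Field F], NormIndexAtMost F N → ElementaryType F) := by
  have base : ∀ (F : Type) [Field F], NormIndexAtMost F N →
      ∃ S : QData, IsStructureOf F S ∧ Finite S.G ∧ IsQuat S ∧ ∀ a : S.G, idx S a ≤ N := by
    intro F _ hF
    obtain ⟨h2, hfin, hN⟩ := hF
    obtain ⟨S, hS, hSf, hSq⟩ := exists_structure h2 (finSq_of_index hfin)
    have hS' := hS
    obtain ⟨φ, hs, hk, hn, h0, hq⟩ := hS
    refine ⟨S, hS', hSf, hSq, fun a => ?_⟩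
    obtain ⟨b, rfl⟩ := hs a
    rw [idx_eq hSq hs h0 hq h2]
    exact hN b
  have main : ∀ (F : Type) [Field F], NormIndexAtMost F N →
      ∃ (S T : QData) (ι : T.G →* S.G), IsStructureOf F S ∧ IsQuat T ∧ Finite T.G ∧ Emb T S ι ∧
        (∀ a : T.G, idx T a ≤ N) ∧ Nat.card T.G ≤ 2 * N ^ 2 * 2 ^ (16 * N ^ 4) ∧
        (ElementaryType F ↔ Elem T) := by
    intro F _ hF
    obtain ⟨S, hS, hSf, hSq, hN⟩ := base F hF
    obtain ⟨T, ι, hTq, hTf, hE, hc, hiff⟩ :=
      substructure hSq Pool.Agent.Y891.QB.t_CUT Pool.Agent.Y941.QB.t_UD hN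
    refine ⟨S, T, ι, hS, hTq, hTf, hE, fun a => (idx_emb hE a).trans (hN _), hc, ?_⟩
    rw [← hiff]
    constructor
    · rintro ⟨R, hR, hRs⟩
      exact Elem.iso _ _ hR (iso_of_structure hRs hS)
    · intro h
      exact ⟨S, h, hS⟩
  refine ⟨?_, main, ?_⟩
  · intro F _ hF
    obtain ⟨S, hS, hSf, hSq, hN⟩ := base F hF
    obtain ⟨n, L, B, lam, ψ, h1, h2, h3⟩ := structure_thm hSq hN
    exact ⟨S, n, L, B, lam, ψ, hS, h1, h2, h3⟩
  · intro hT F _ hF
    obtain ⟨S, T, ι, hS, hTq, hTf, -, hTN, hc, hiff⟩ := main F hF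
    exact hiff.2 (hT T hTq hTf hc hTN)

end Pool.Agent.Results.MP_2429c0_al.LargeNormGroups
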