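import Mathlib
import Pool.Agent.Y920.ETC.FieldR
import Pool.Agent.Y620.ET.Res

set_option autoImplicit false

/-! # MP_2429c0_al: fields with small norm groups -/

namespace Pool.Agent.Results.MP_2429c0_al.SmallNormGroups

open Pool.Agent.H315R3.ETC Pool.Agent.TH188.ET Pool.Agent.Y920.ETC

/-- the group of squares of `F*` -/
def squares (F : Type) [Field F] : Subgroup Fˣ := (powMonoidHom 2 : Fˣ →* Fˣ).range

/-- the group of the nonzero values of `x² - a y²`: the norm group of `F(√a)` if `a` is not a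
square -/
def normGroup {F : Type} [Field F] (a : Fˣ) : Subgroup Fˣ where
  carrier := {c | ∃ x y : F, (c : F) = x ^ 2 - a * y ^ 2}
  one_mem' := (nG a).one_mem
  mul_mem' := (nG a).mul_mem
  inv_mem' := (nG a).inv_mem

/-- the characteristic is not two, `F*/F*²` is finite, and all norm groups of quadratic extensions
have at most `N` classes modulo squares -/
def NormsAtMost (F : Type) [Field F] (N : ℕ) : Prop :=
  (2 : F) ≠ 0 ∧ (squares F).index ≠ 0 ∧
    ∀ a : Fˣ, a ∉ squares F → (squares F).relIndex (normGroup a) ≤ N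

/-- the quaternionic structure of `F` is of elementary type -/
def ElementaryType (F : Type) [Field F] : Prop := ∃ S : QData, Elem S ∧ IsStructureOf F S

theorem result (N : ℕ) (hN : 1 ≤ N) :
    -- the structure of the field is an iterated group extension of a small structure
    (∀ (F : Type) [Field F], NormsAtMost F N →
      ∃ (T : QData) (k : ℕ), IsQuat T ∧ Finite T.G ∧ Nat.card T.G ≤ 4 * N ^ 4 ∧
        IsStructureOf F (ext^[k] T)) ∧
    -- if there are more than `8 N⁴` square classes there is a valuation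
    (∀ (F : Type) [Field F], NormsAtMost F N → 8 * N ^ 4 < (squares F).index →
      ∃ O : ValuationSubring F,
        (∀ x : F, x ∈ O → x⁻¹ ∉ O → IsSquare (1 + x)) ∧
        NormsAtMost (IsLocalRing.ResidueField O) N ∧
        (squares (IsLocalRing.ResidueField O)).index ≤ 8 * N ^ 4 ∧
        ∃ (T : QData) (k : ℕ), 1 ≤ k ∧
          2 ^ k * (squares (IsLocalRing.ResidueField O)).index = (squares F).index ∧
          IsStructureOf (IsLocalRing.ResidueField O) T ∧ IsStructureOf F (ext^[k] T)) ∧
    -- reduction of the weak conjecture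
    ((∀ (F : Type) [Field F], NormsAtMost F N → (squares F).index ≤ 8 * N ^ 4 →
        ElementaryType F) →
      ∀ (F : Type) [Field F], NormsAtMost F N → ElementaryType F) := by
  have hval : ∀ (F : Type) [Field F], NormsAtMost F N → 8 * N ^ 4 < (squares F).index →
      ∃ O : ValuationSubring F,
        (∀ x : F, x ∈ O → x⁻¹ ∉ O → IsSquare (1 + x)) ∧
        NormsAtMost (IsLocalRing.ResidueField O) N ∧
        (squares (IsLocalRing.ResidueField O)).index ≤ 8 * N ^ 4 ∧
        ∃ (T : QData) (k : ℕ), 1 ≤ k ∧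
          2 ^ k * (squares (IsLocalRing.ResidueField O)).index = (squares F).index ∧
          IsStructureOf (IsLocalRing.ResidueField O) T ∧ IsStructureOf F (ext^[k] T) := by
    intro F _ hF hlarge
    obtain ⟨h2, hfin, hsmall⟩ := hF
    obtain ⟨O, hO, hOc, k, T, hk1, hk, hT, hTF⟩ := reduce Pool.Agent.Y620.ET.t_RES h2 hN hfin
      hsmall hlarge
    exact ⟨O, hO.sqr.2.2, ⟨hO.two, hO.fin, hO.small⟩, hOc, T, k, hk1, hk, hT, hTF⟩
  refine ⟨?_, hval, ?_⟩
  · intro F _ hF
    obtain ⟨h2, hfin, hsmall⟩ := hF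
    obtain ⟨S, hS, hSf, hSq⟩ := exists_structure h2 (finSq_of_index hfin)
    have hS' := hS
    obtain ⟨φ, hs, hk, hn, h0, hq⟩ := hS
    have hvs : ∀ g : S.G, g ≠ 1 → vs S g ≤ N := by
      intro g hg
      obtain ⟨a, rfl⟩ := hs g
      rw [vs_eq hs hk h0 hq h2]
      refine hsmall a fun ha => hg ?_
      rw [hk]
      exact mem_sqG.1 ha
    obtain ⟨T, k, hT, hTf, hTc, -, -, hTi⟩ := iter Pool.Agent.Y43.ET.t_GL hN _ S hSq hSf le_rfl hvs
    refine ⟨T, k, hT, hTf, hTc, structure_iso hS' (iso_symm hTi) ?_⟩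
    have : ∀ (k : ℕ) (T : QData), T.q 1 1 = T.zero → (ext^[k] T).q 1 1 = (ext^[k] T).zero := by
      intro k T hT
      induction k with
      | zero => exact hT
      | succ k ih =>
        rw [Function.iterate_succ_apply']
        show (((ext^[k] T).q 1 1, pw (pw (ext^[k] T).neg 1) 1 * pw 1 1 * pw 1 1) :
          (ext^[k] T).Q × (ext^[k] T).G) = ((ext^[k] T).zero, 1)
        rw [ih]
        simp [pw]
    exact this k T (q_one hT 1)
  · intro hsm F _ hF
    by_cases hlarge : (squares F).index ≤ 8 * N ^ 4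
    · exact hsm F hF hlarge
    push Not at hlarge
    obtain ⟨O, -, hκ, hκc, T, k, -, -, hT, hTF⟩ := hval F hF hlarge
    obtain ⟨R, hR, hRs⟩ := hsm _ hκ hκc
    have hTE : Elem T := Elem.iso _ _ hR (iso_of_structure hRs hT)
    exact ⟨_, elem_iter hTE k, hTF⟩

end Pool.Agent.Results.MP_2429c0_al.SmallNormGroups
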